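import Pool.Agent.Helper71.SD.Goals

namespace Pool.Agent.Helper71.SD.CONN

open Pool.Agent.Helper71.AHtpy SimpleGraph

theorem card_tog_mem {a : E} {S : Finset E} (h : a ∈ S) : (tog a S).card + 1 = S.card := by
  have : tog a S = S.erase a := by
    ext i
    simp only [mem_tog, Finset.mem_erase]
    constructor
    · rintro (⟨h1, h2⟩ | ⟨rfl, h2⟩)
      · exact ⟨h2, h1⟩
      · exact absurd h h2
    · rintro ⟨h1, h2⟩
      exact Or.inl ⟨h2, h1⟩
  rw [this, Finset.card_erase_of_mem h]
  have := Finset.card_pos.mpr ⟨a, h⟩
  omega

theorem card_tog_not_mem {a : E} {S : Finset E} (h : a ∉ S) : (tog a S).card = S.card + 1 := by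
  have : tog a S = insert a S := by
    ext i
    simp only [mem_tog, Finset.mem_insert]
    constructor
    · rintro (⟨h1, h2⟩ | ⟨rfl, h2⟩)
      · exact Or.inr h1
      · exact Or.inl rfl
    · rintro (rfl | h1)
      · exact Or.inr ⟨rfl, h⟩
      · by_cases hi : i = a
        · subst hi
          exact absurd h1 h
        · exact Or.inl ⟨h1, hi⟩
  rw [this, Finset.card_insert_of_notMem h]

theorem symm_tog {a : E} {S T : Finset E} (h : a ∈ symmDiff S T) :
    (symmDiff (tog a S) T).card + 1 = (symmDiff S T).card := by
  have : symmDiff (tog a S) T = (symmDiff S T).erase a := by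
    ext i
    simp only [Finset.mem_symmDiff, mem_tog, Finset.mem_erase] at h ⊢
    by_cases hi : i = a
    · subst hi
      tauto
    · tauto
  rw [this, Finset.card_erase_of_mem h]
  have := Finset.card_pos.mpr ⟨a, h⟩
  omega

theorem conn : S_CONN := by
  intro w P hw1 hw2 hP S T
  induction hd : (symmDiff S T).card using Nat.strong_induction_on generalizing S with
  | _ d ih =>
    intro hS hT hPS
    by_cases hST : S = T
    · exact hST ▸ hPS
    · -- find a
      have key : ∃ a, a ∈ symmDiff S T ∧ Bd w (tog a S) := by
        unfold Bd at hS hT ⊢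
        have hc1 : (S \ T).card + (S ∩ T).card = S.card := Finset.card_sdiff_add_card_inter S T
        have hc2 : (T \ S).card + (T ∩ S).card = T.card := Finset.card_sdiff_add_card_inter T S
        rw [Finset.inter_comm] at hc2
        by_cases h1 : (S \ T).Nonempty
        · obtain ⟨a, ha⟩ := h1
          by_cases h2 : (T \ S).Nonempty
          · obtain ⟨b, hb⟩ := h2
            rw [Finset.mem_sdiff] at ha hb
            by_cases h3 : 30 - w < S.card
            · refine ⟨a, Finset.mem_symmDiff.mpr (Or.inl ha), ?_⟩
              have := card_tog_mem ha.1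
              omega
            · refine ⟨b, Finset.mem_symmDiff.mpr (Or.inr hb), ?_⟩
              have := card_tog_not_mem hb.2
              omega
          · rw [Finset.not_nonempty_iff_eq_empty] at h2
            rw [h2, Finset.card_empty] at hc2
            have hpos := Finset.card_pos.mpr ⟨a, ha⟩
            rw [Finset.mem_sdiff] at ha
            refine ⟨a, Finset.mem_symmDiff.mpr (Or.inl ha), ?_⟩
            have := card_tog_mem ha.1
            omega
        · rw [Finset.not_nonempty_iff_eq_empty] at h1
          have h2 : (T \ S).Nonempty := by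
            rw [Finset.nonempty_iff_ne_empty]
            intro h2
            apply hST
            rw [Finset.sdiff_eq_empty_iff_subset] at h1 h2
            exact Finset.Subset.antisymm h1 h2
          obtain ⟨b, hb⟩ := h2
          have hpos := Finset.card_pos.mpr ⟨b, hb⟩
          rw [h1, Finset.card_empty] at hc1
          rw [Finset.mem_sdiff] at hb
          refine ⟨b, Finset.mem_symmDiff.mpr (Or.inr hb), ?_⟩
          have := card_tog_not_mem hb.2
          omega
      obtain ⟨a, ha, hB⟩ := key
      have hlt := symm_tog ha
      exact ih _ (by omega) (tog a S) rfl hB hT (hP S a hS hB hPS)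

end Pool.Agent.Helper71.SD.CONN
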