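import Pool.Agent.Helper71.SD.Goals

namespace Pool.Agent.Helper71.SD.SIDE2

open Pool.Agent.Helper71.AHtpy SimpleGraph

theorem near_lev {V : Type} {G : SimpleGraph V} {n : ℕ} {p q : Quotient (suspSetoid V n)}
    (h : Near (Susp G n) p q) : lev p ≤ lev q + 1 ∧ lev q ≤ lev p + 1 := by
  have h' := (near_pt_iff (X := G) (x := lab p) (y := lab q) (lev_le p) (lev_le q)).1
    (by rw [pt_lab_lev, pt_lab_lev]; exact h)
  exact h'.1

theorem aff_one (S : Finset E) :
    aff (Equiv.toEmbedding (1 : Equiv.Perm E)) (∅ : Finset E) S = S := by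
  have h : S.map (Equiv.toEmbedding (1 : Equiv.Perm E)) = S := by
    ext x
    rw [Finset.mem_map]
    constructor
    · rintro ⟨y, hy, rfl⟩
      exact hy
    · intro hx
      exact ⟨x, hx, rfl⟩
  unfold aff
  rw [h]
  ext x
  simp [Finset.mem_symmDiff]

theorem dec_ne {i k : E} (h : k ≠ i) (S : Finset E) :
    decide (i ∈ tog k S) = decide (i ∈ S) := by
  have : i ∈ tog k S ↔ i ∈ S := by
    rw [mem_tog]
    constructor
    · rintro (⟨h1, h2⟩ | ⟨h1, h2⟩)
      · exact h1
      · exact absurd h1.symm h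
    · intro h1
      exact Or.inl ⟨h1, h.symm⟩
  simp [this]

theorem dec_eq (i : E) (S : Finset E) :
    decide (i ∈ tog i S) = !decide (i ∈ S) := by
  by_cases h : i ∈ S <;> simp [mem_tog, h]

theorem tog_card_le (i : E) (S : Finset E) (h1 : S_XC1) : (tog i S).card ≤ S.card + 1 ∧
    S.card ≤ (tog i S).card + 1 := by
  have h := h1.2.2.2.2.2.2.2 i S
  by_cases hi : i ∈ S
  · have := h.1 hi
    omega
  · have := h.2 hi
    omega

theorem side2 : S_NBR → S_LBL → S_MKESS → S_LEVB → S_XC1 → S_SIDE2 := by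
  intro _ hLBL hMK hLEV hXC V G A σ₀ σ₁ hp i e hlab
  have hcompl := hXC.2.2.2.2.2.1
  have hcomm := hXC.2.2.2.2.2.2.1
  refine ⟨1, ∅, ?_⟩
  simp only [aff_one]
  change EssB A (side σ₀ σ₁ i e)
  have hpos : ∀ S, decide (i ∈ S) = e → side σ₀ σ₁ i e S = σ₀ S := by
    intro S hS
    unfold side
    rw [if_pos hS]
  have hneg : ∀ S, ¬ decide (i ∈ S) = e → side σ₀ σ₁ i e S = σ₁ (tog i S) := by
    intro S hS
    unfold side
    rw [if_neg hS]
  have hflip : ∀ S, ¬ decide (i ∈ S) = e → decide (i ∈ tog i S) = e := by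
    intro S hS
    rw [dec_eq]
    revert hS
    cases decide (i ∈ S) <;> cases e <;> simp
  have hflip' : ∀ S, decide (i ∈ S) = e → ¬ decide (i ∈ tog i S) = e := by
    intro S hS
    rw [dec_eq]
    revert hS
    cases decide (i ∈ S) <;> cases e <;> simp
  obtain ⟨hL1, hL2⟩ := hLEV V G A σ₀ hp.ess
  apply hMK V G A
  · rintro S T ⟨k, rfl⟩
    by_cases hk : k = i
    · subst hk
      by_cases hS : decide (k ∈ S) = e
      · rw [hpos S hS, hneg _ (hflip' S hS), tog_tog]
        exact hp.near S
      · rw [hneg S hS, hpos _ (hflip S hS)]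
        exact (hp.near _).symm
    · by_cases hS : decide (i ∈ S) = e
      · rw [hpos S hS, hpos (tog k S) (by rw [dec_ne hk]; exact hS)]
        exact hp.ess.1 S (tog k S) ⟨k, rfl⟩
      · rw [hneg S hS, hneg (tog k S) (by rw [dec_ne hk]; exact hS), hcomm i k S]
        exact hp.g1 _ _ ⟨k, rfl⟩
  · intro S hS
    by_cases he : decide (i ∈ S) = e
    · rw [hpos S he]
      exact hp.ess.2.1 S hS
    · rw [hneg S he]
      have hB : Bd 2 (tog i S) := by
        have := tog_card_le i S hXC
        unfold Bd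
        omega
      have := (hLBL V G A σ₁ (tog i S) i).1 (hlab (tog i S) hB (hflip S he))
      rw [tog_tog] at this
      exact this
  · intro z hz
    by_cases he : decide (i ∈ z) = e
    · rw [hpos z he]
      have := hL1 z (by omega)
      omega
    · rw [hneg z he]
      have h1 := hL1 (tog i z) (by have := tog_card_le i z hXC; omega)
      have h2 := near_lev (hp.near (tog i z))
      omega
  · intro z hz
    by_cases he : decide (i ∈ zᶜ) = e
    · rw [hpos _ he]
      have := hL2 z (by omega)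
      omega
    · rw [hneg _ he, ← hcompl i z]
      have h1 := hL2 (tog i z) (by have := tog_card_le i z hXC; omega)
      have h2 := near_lev (hp.near (tog i z)ᶜ)
      omega

end Pool.Agent.Helper71.SD.SIDE2
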