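import Pool.Agent.Helper71.SD.Goals

namespace Pool.Agent.Helper71.SD.TW4

open Pool.Agent.Helper71.AHtpy SimpleGraph

theorem footT_some {t : T} {S : Finset E} (h : footT t = some S) :
    ∃ (m : ℕ) (A : SimpleGraph (Fin m)) (g : Fin m → T) (i : Fin m),
      t = .cyl m A g i 0 ∧ g i = .base (.mid S) := by
  cases t with
  | base y => simp [footT] at h
  | apex m A g => simp [footT] at h
  | cyl m A g i l =>
    cases l with
    | succ l => simp [footT] at h
    | zero =>
      refine ⟨m, A, g, i, rfl, ?_⟩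
      simp only [footT] at h
      split at h
      · rename_i S' hS'
        simp only [Option.some.injEq] at h
        rw [hS', h]
      · simp at h

theorem tw4 : S_TW3 → S_CONN → S_TW4 := by
  rintro ⟨-, -, h3⟩ hconn ⟨φ, hφ, hadj⟩
  obtain ⟨S₀, -, hS₀⟩ := Finset.exists_subset_card_eq (s := (Finset.univ : Finset E)) (n := 30)
    (by simp)
  have hcore₀ : Core S₀ := by
    unfold Core
    omega
  obtain ⟨m, A, g, i₀, hS1, hS2⟩ := footT_some (hφ S₀ hcore₀).2
  let P : Finset E → Prop := fun S => ∃ i, φ S = .cyl m A g i 0 ∧ g i = .base (.mid S)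
  have hBC : ∀ S, Bd 2 S ↔ Core S := by
    intro S
    unfold Bd Core
    omega
  have hstep : ∀ S a, Bd 2 S → Bd 2 (tog a S) → P S → P (tog a S) := by
    intro S a hS hT ⟨i, hi1, hi2⟩
    rw [hBC] at hS hT
    have hne : S ≠ tog a S := (tog_ne a S).symm
    obtain ⟨m', A', g', i', j', -, h1, h2, h3', h4⟩ := h3 (φ S) (φ (tog a S)) S (tog a S) hne
      (hφ S hS).2 (hφ _ hT).2 (hadj S _ hS hT ⟨a, rfl⟩)
    rw [hi1] at h1
    injection h1 with e1 e2 e3 e4 e5
    subst e1
    have e2' := eq_of_heq e2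
    have e3' := eq_of_heq e3
    subst e2'
    subst e3'
    exact ⟨j', h2, h4⟩
  have hall : ∀ S, Core S → P S := by
    intro S hS
    exact hconn 2 P (by norm_num) (by norm_num) hstep S₀ S ((hBC _).2 hcore₀) ((hBC _).2 hS)
      ⟨i₀, hS1, hS2⟩
  classical
  let q : Finset E → Fin m := fun S => if h : Core S then (hall S h).choose else i₀
  have hq : ∀ S, Core S → φ S = .cyl m A g (q S) 0 ∧ g (q S) = .base (.mid S) := by
    intro S hS
    have := (hall S hS).choose_spec
    simp only [q, dif_pos hS]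
    exact this
  have hval := (hφ S₀ hcore₀).1
  rw [hS1] at hval
  have hfree : Free T.base A g := by
    simp only [Valid] at hval
    exact hval.2.2.1
  apply hfree
  refine ⟨q, fun S hS => (hq S hS).2, ?_⟩
  intro S S' hS hS' hSS
  have hne : S ≠ S' := by
    obtain ⟨a, rfl⟩ := hSS
    exact (tog_ne a S).symm
  obtain ⟨m', A', g', i', j', hA, h1, h2, h3', h4⟩ := h3 (φ S) (φ S') S S' hne
    (hφ S hS).2 (hφ _ hS').2 (hadj S _ hS hS' hSS)
  rw [(hq S hS).1] at h1
  rw [(hq S' hS').1] at h2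
  injection h1 with e1 e2 e3 e4 e5
  subst e1
  have e2' := eq_of_heq e2
  have e3' := eq_of_heq e3
  have e4' := eq_of_heq e4
  subst e2'
  subst e3'
  injection h2 with f1 f2 f3 f4 f5
  rw [e4', f4]
  exact Or.inr hA

end Pool.Agent.Helper71.SD.TW4
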